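import Pool.Agent.Q129.LNC.Main

/-!
# Starshapedness from clear visibility of `d + 1` points of local non-convexity

For every dimension `d`, a compact connected set `E ⊆ ℝ^d` is starshaped if (and only if) any
`d + 1` (not necessarily distinct) points of local non-convexity of `E` are all clearly visible
from one point of `E`. For `d = 2` this is Breen's theorem; the question asked for the existence
of some `n = n(d)` for `d ≥ 3`.
-/

set_option autoImplicit false

open Metric

namespace Pool.Agent.Results.MP_ad2f8c_co.ClearVisibility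

/-- `y` sees `x` in `E`: the closed segment from `y` to `x` is contained in `E`. -/
def Sees {d : ℕ} (E : Set (EuclideanSpace ℝ (Fin d))) (y x : EuclideanSpace ℝ (Fin d)) : Prop :=
  segment ℝ y x ⊆ E

/-- `x` is a point of local non-convexity of `E`: a boundary point of `E` such that
`B_r(x) ∩ E` is not convex, for every `r > 0`. -/
def IsLNC {d : ℕ} (E : Set (EuclideanSpace ℝ (Fin d))) (x : EuclideanSpace ℝ (Fin d)) : Prop :=
  x ∈ frontier E ∧ ∀ r > 0, ¬ Convex ℝ (ball x r ∩ E)

/-- `x` is clearly visible from `y`: there is `r > 0` such that `y` sees every point of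
`B_r(x) ∩ E`. -/
def ClearlyVisible {d : ℕ} (E : Set (EuclideanSpace ℝ (Fin d)))
    (x y : EuclideanSpace ℝ (Fin d)) : Prop :=
  ∃ r > 0, ∀ p ∈ ball x r ∩ E, Sees E y p

/-- Property `C_n`: for any points `x 1, …, x n` of local non-convexity of `E` (not necessarily
distinct) there is a point of `E` from which all of them are clearly visible. -/
def PropC {d : ℕ} (n : ℕ) (E : Set (EuclideanSpace ℝ (Fin d))) : Prop :=
  ∀ x : Fin n → EuclideanSpace ℝ (Fin d), (∀ i, IsLNC E (x i)) →
    ∃ y ∈ E, ∀ i, ClearlyVisible E (x i) y

/-- `E` is starshaped: some point of `E` sees every point of `E`. -/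
def IsStarshaped {d : ℕ} (E : Set (EuclideanSpace ℝ (Fin d))) : Prop :=
  ∃ y ∈ E, ∀ z ∈ E, Sees E y z

/-- For every `d`, a compact connected set in `ℝ^d` is starshaped if and only if it has
property `C_{d+1}`. -/
theorem result : ∀ (d : ℕ) (E : Set (EuclideanSpace ℝ (Fin d))),
    IsCompact E → IsConnected E → (IsStarshaped E ↔ PropC (d + 1) E) := by
  intro d E hE hconn
  constructor
  · rintro ⟨y, hy, h⟩ x _
    exact ⟨y, hy, fun i => ⟨1, one_pos, fun p hp => h p hp.2⟩⟩
  · intro hC
    have hd : Module.finrank ℝ (EuclideanSpace ℝ (Fin d)) = d := by simp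
    refine Q129.LNC.main hE hconn ?_
    rw [hd]
    exact hC

end Pool.Agent.Results.MP_ad2f8c_co.ClearVisibility
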